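import Pool.Agent.R973.OSI.Proof

/-!
# SparseStack matrices of constant sparsity are not oblivious subspace injections

Here `r`-dimensional subspaces of `ℝ^n` are considered and `k = b ζ ≤ C r`. A lower bound for the
sparsity `ζ` of a SparseStack which is an oblivious subspace injection with parameter `α`:
`ζ ^ 2 * log (2 + ζ / α) > c * α * log r`. The definitions `Outcome`, `prob`, `sparseStack`,
`Injects`, `IsOSI` are in `Pool.Agent.R973.OSI.Defs`.
-/

set_option autoImplicit false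

open Pool.Agent.R973.OSI

namespace Pool.Agent.Results.MP_59a663_pr.SparsityLowerBound

open Filter Topology in
/-- **SparseStack matrices need sparsity at least of order `√(log r / log log r)`.**
(1) For `k = b ζ ≤ C r`, a SparseStack which is an oblivious subspace injection for dimension `r`
with parameter `α ≤ 1` satisfies `ζ ^ 2 * log (2 + ζ / α) > c * α * log r`, with `c > 0` depending
only on `C`.
(2) The negated form of the first question.
(3) The negative answer to the second question, for `r = 2 m`, `ζ = 4`, `b = m`, `k = 4 m = 2 r`,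
all large `m` and all `n ≥ r`. -/
theorem result :
    (∀ C : ℝ, ∃ c : ℝ, 0 < c ∧ ∀ (r n ζ b : ℕ) (α : ℝ), 0 < α → α ≤ 1 → 1 ≤ r → r ≤ n →
      1 ≤ ζ → 1 ≤ b → ((b * ζ : ℕ) : ℝ) ≤ C * r → IsOSI n b ζ r α →
      c * α * Real.log r < (ζ : ℝ) ^ 2 * Real.log (2 + ζ / α)) ∧
    (∀ c C₁ C₂ α₀ : ℝ, 0 < c → 0 < C₁ → 0 < C₂ → 0 < α₀ → ∃ n r : ℕ, 1 ≤ r ∧ r ≤ n ∧
      (r : ℝ) ≤ c * n / Real.log n ∧ ∀ ζ b : ℕ, 1 ≤ ζ → 1 ≤ b → (ζ : ℝ) ≤ C₁ →
      ((b * ζ : ℕ) : ℝ) ≤ C₂ * r → ¬ IsOSI n b ζ r α₀) ∧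
    (∀ α₀ : ℝ, 0 < α₀ → ∃ m₀ : ℕ, ∀ m n : ℕ, m₀ ≤ m → 2 * m ≤ n → ¬ IsOSI n m 4 (2 * m) α₀) := by
  refine ⟨sparsity_lower, ?_, ?_⟩
  · intro c C₁ C₂ α₀ hc _ _ hα₀
    obtain ⟨r₀, h⟩ := constant_sparsity C₁ C₂ α₀ hα₀
    set r : ℕ := max r₀ 1 with hr
    have h1 : Tendsto (fun n : ℕ => Real.log (n : ℝ) / (n : ℝ)) atTop (𝓝 0) := by
      have h2 := Real.isLittleO_log_id_atTop.tendsto_div_nhds_zero
      exact h2.comp tendsto_natCast_atTop_atTop
    have h3 : ∀ᶠ n : ℕ in atTop, Real.log (n : ℝ) / (n : ℝ) < c / r := by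
      have hr0 : (0 : ℝ) < r := by
        have : 1 ≤ r := le_max_right _ _
        exact_mod_cast this
      exact h1.eventually_lt_const (by positivity)
    obtain ⟨n, ⟨hn1, hn2⟩, hn3⟩ := ((h3.and (eventually_ge_atTop r)).and
      (eventually_ge_atTop 2)).exists
    refine ⟨n, r, le_max_right _ _, hn2, ?_, ?_⟩
    · have hn0 : (1 : ℝ) < n := by exact_mod_cast hn3
      have hlog : 0 < Real.log n := Real.log_pos hn0
      have hr0 : (0 : ℝ) < r := by
        have : 1 ≤ r := le_max_right _ _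
        exact_mod_cast this
      rw [div_lt_div_iff₀ (by linarith) hr0] at hn1
      rw [le_div_iff₀ hlog]
      linarith
    · intro ζ b hζ hb hζC hk
      exact h r n ζ b (le_max_left _ _) hn2 hζ hb hζC hk
  · intro α₀ hα₀
    obtain ⟨r₀, h⟩ := constant_sparsity 4 2 α₀ hα₀
    refine ⟨max r₀ 1, ?_⟩
    intro m n hm hn
    have hm1 : 1 ≤ m := (le_max_right _ _).trans hm
    have hm2 : r₀ ≤ m := (le_max_left _ _).trans hm
    refine h (2 * m) n 4 m (by omega) hn (by norm_num) hm1 (by norm_num) ?_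
    push_cast
    linarith

end Pool.Agent.Results.MP_59a663_pr.SparsityLowerBound
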